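import Pool.Agent.EDX.Stmts1

set_option autoImplicit false

namespace Pool.Agent.EDX.H88

open Polynomial Finset Pool.Agent.EDG Pool.Agent.EDX Module

section decomp

variable {K : Type} [Field K]

theorem natDegree_comp_two {F : K[X]} (hF2 : F.natDegree = 2) (f : K[X]) :
    (f.comp F).natDegree = 2 * f.natDegree := by
  rw [natDegree_comp, hF2, mul_comm]

theorem comp_ne_zero_two {F : K[X]} (hF2 : F.natDegree = 2) {f : K[X]} (hf : f ≠ 0) :
    f.comp F ≠ 0 := by
  intro h0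
  rw [comp_eq_zero_iff] at h0
  rcases h0 with h0 | ⟨_, h1⟩
  · exact hf h0
  · rw [h1, natDegree_C] at hF2
    omega

/-- every polynomial is `q₀ ∘ F + y (q₁ ∘ F)` -/
theorem exists_decomp {F : K[X]} (hF : F.Monic) (hF2 : F.natDegree = 2) :
    ∀ (n : ℕ) (q : K[X]), q.natDegree < n → ∃ q₀ q₁ : K[X], q = q₀.comp F + X * q₁.comp F := by
  intro n
  induction n with
  | zero => intro q hq; omega
  | succ n ih =>
    intro q hq
    have hr : (q %ₘ F).degree < 2 := by
      have := degree_modByMonic_lt q hF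
      rwa [degree_eq_natDegree hF.ne_zero, hF2] at this
    have hr1 : (q %ₘ F) = C ((q %ₘ F).coeff 1) * X + C ((q %ₘ F).coeff 0) := by
      apply eq_X_add_C_of_degree_le_one
      rw [degree_le_iff_coeff_zero]
      intro m hm
      apply coeff_eq_zero_of_degree_lt
      have hm1 : 1 < m := by exact_mod_cast hm
      have hm2 : (2 : WithBot ℕ) ≤ (m : WithBot ℕ) := by exact_mod_cast hm1
      exact lt_of_lt_of_le hr hm2
    have hmd := modByMonic_add_div q F
    by_cases hlt : q.natDegree < 2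
    · refine ⟨C (q.coeff 0), C (q.coeff 1), ?_⟩
      have h1 : q.degree ≤ 1 := by
        have h2 : q.natDegree ≤ 1 := by omega
        exact natDegree_le_iff_degree_le.mp h2
      conv_lhs => rw [eq_X_add_C_of_degree_le_one h1]
      rw [C_comp, C_comp]
      ring
    · have hd : (q /ₘ F).natDegree < n := by
        rw [natDegree_divByMonic q hF, hF2]
        omega
      obtain ⟨p₀, p₁, hp⟩ := ih (q /ₘ F) hd
      refine ⟨X * p₀ + C ((q %ₘ F).coeff 0), X * p₁ + C ((q %ₘ F).coeff 1), ?_⟩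
      conv_lhs => rw [← hmd, hr1, hp]
      simp only [add_comp, mul_comp, X_comp, C_comp]
      ring

end decomp

section ranks

variable {k A B : Type} [Field k] [AddCommGroup A] [Module k A] [FiniteDimensional k A]
  [AddCommGroup B] [Module k B]

theorem rank_map (f : A →ₗ[k] B) (L : Submodule k A) :
    finrank k (L.map f) + finrank k (L ⊓ LinearMap.ker f : Submodule k A) = finrank k L := by
  have h1 := LinearMap.finrank_range_add_finrank_ker (f.domRestrict L)
  rw [LinearMap.range_domRestrict, LinearMap.ker_domRestrict] at h1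
  have h2 : finrank k (Submodule.comap L.subtype (LinearMap.ker f)) =
      finrank k (L ⊓ LinearMap.ker f : Submodule k A) := by
    rw [← Submodule.finrank_map_subtype_eq, Submodule.map_comap_subtype]
  rw [h2] at h1
  exact h1

theorem rank_step (α : A →ₗ[k] A) (L M N : Submodule k A) (hNM : N ≤ M)
    (hL : L ≤ M.comap α) :
    finrank k L + finrank k N ≤ finrank k (L ⊓ N.comap α : Submodule k A) + finrank k M := by
  have h1 := rank_map (N.mkQ.comp α) L
  have h2 := rank_map N.mkQ M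
  rw [LinearMap.ker_comp, Submodule.ker_mkQ] at h1
  rw [Submodule.ker_mkQ, inf_eq_right.mpr hNM] at h2
  have h3 : finrank k (L.map (N.mkQ.comp α)) ≤ finrank k (M.map N.mkQ) := by
    apply Submodule.finrank_mono
    rw [Submodule.map_comp]
    exact Submodule.map_mono (Submodule.map_le_iff_le_comap.mpr hL)
  omega

end ranks

section main

variable {K : Type} [Field K]

theorem lt_of_two {F : K[X]} (hF2 : F.natDegree = 2) {r : ℕ} {f : K[X]}
    (hf : f.degree < (r : WithBot ℕ)) :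
    (f.comp F).degree < ((2 * r : ℕ) : WithBot ℕ) ∧
      (X * f.comp F).degree < ((2 * r : ℕ) : WithBot ℕ) := by
  by_cases h0 : f = 0
  · subst h0
    rw [zero_comp, mul_zero, degree_zero]
    exact ⟨WithBot.bot_lt_coe _, WithBot.bot_lt_coe _⟩
  · have hn : f.natDegree < r := (natDegree_lt_iff_degree_lt h0).mpr hf
    have hc := comp_ne_zero_two hF2 h0
    have hx : (X : K[X]) * f.comp F ≠ 0 := mul_ne_zero X_ne_zero hc
    rw [← natDegree_lt_iff_degree_lt hc, ← natDegree_lt_iff_degree_lt hx, natDegree_X_mul hc,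
      natDegree_comp_two hF2]
    omega

/-- the two components of a polynomial of degree `< 2r` have degree `< r` -/
theorem parity {F : K[X]} (hF2 : F.natDegree = 2) {r : ℕ} {a b : K[X]}
    (h : (a.comp F + X * b.comp F).degree < ((2 * r : ℕ) : WithBot ℕ)) :
    a.degree < (r : WithBot ℕ) ∧ b.degree < (r : WithBot ℕ) := by
  by_cases ha : a = 0
  · subst ha
    rw [zero_comp, zero_add] at h
    refine ⟨by simp, ?_⟩
    by_cases hb : b = 0
    · subst hb; simp
    · have hc := comp_ne_zero_two hF2 hb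
      have hx : (X : K[X]) * b.comp F ≠ 0 := mul_ne_zero X_ne_zero hc
      rw [← natDegree_lt_iff_degree_lt hx, natDegree_X_mul hc, natDegree_comp_two hF2] at h
      rw [← natDegree_lt_iff_degree_lt hb]
      omega
  · have hca := comp_ne_zero_two hF2 ha
    by_cases hb : b = 0
    · subst hb
      rw [zero_comp, mul_zero, add_zero] at h
      refine ⟨?_, by simp⟩
      rw [← natDegree_lt_iff_degree_lt hca, natDegree_comp_two hF2] at h
      rw [← natDegree_lt_iff_degree_lt ha]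
      omega
    · have hc := comp_ne_zero_two hF2 hb
      have hx : (X : K[X]) * b.comp F ≠ 0 := mul_ne_zero X_ne_zero hc
      have hda : (a.comp F).degree = ((2 * a.natDegree : ℕ) : WithBot ℕ) := by
        rw [degree_eq_natDegree hca, natDegree_comp_two hF2]
      have hdb : (X * b.comp F).degree = ((2 * b.natDegree + 1 : ℕ) : WithBot ℕ) := by
        rw [degree_eq_natDegree hx, natDegree_X_mul hc, natDegree_comp_two hF2]
      have hne : (a.comp F).degree ≠ (X * b.comp F).degree := by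
        rw [hda, hdb]
        intro hh
        have : 2 * a.natDegree = 2 * b.natDegree + 1 := by exact_mod_cast hh
        omega
      have hboth : (a.comp F).degree < ((2 * r : ℕ) : WithBot ℕ) ∧
          (X * b.comp F).degree < ((2 * r : ℕ) : WithBot ℕ) := by
        rcases lt_or_gt_of_ne hne with hlt | hlt
        · rw [degree_add_eq_right_of_degree_lt hlt] at h
          exact ⟨hlt.trans h, h⟩
        · rw [degree_add_eq_left_of_degree_lt hlt] at h
          exact ⟨h, lt_trans hlt h⟩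
      rw [hda, hdb] at hboth
      have h1 : 2 * a.natDegree < 2 * r := by exact_mod_cast hboth.1
      have h2 : 2 * b.natDegree + 1 < 2 * r := by exact_mod_cast hboth.2
      rw [← natDegree_lt_iff_degree_lt ha, ← natDegree_lt_iff_degree_lt hb]
      omega

variable {k₀ A : Type} [Field k₀] [Algebra k₀ K] [AddCommGroup A] [Module k₀ A]

/-- part (i) -/
theorem part1 (T : Dat k₀ K A) {Φ Ψ Φ' G m : K[X]} {r : ℕ} (hΦ : Φ = G * Φ')
    (hG : G ∣ Ψ.comp T.Fm) (hm : Φ' ∣ m.comp T.Fm) {P : A} (hP : P ∈ LL T.mu Φ (2 * r)) :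
    T.al P ∈ LL T.mu (m * Ψ) r ∧ T.be P ∈ LL T.mu (m * Ψ) r := by
  have key : ∀ f : K[X], m * Ψ ∣ f → Φ ∣ f.comp T.Fm := by
    rintro _ ⟨q, rfl⟩
    rw [mul_comp, mul_comp, hΦ]
    exact dvd_mul_of_dvd_left (by rw [mul_comm]; exact mul_dvd_mul hm hG) _
  constructor
  · intro f hf hd
    rw [T.hal]
    exact hP _ (key f hf) (lt_of_two T.deg hd).1
  · intro f hf hd
    rw [T.hbe]
    exact hP _ (dvd_mul_of_dvd_right (key f hf) _) (lt_of_two T.deg hd).2

/-- part (iii) -/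
theorem part3 (T : Dat k₀ K A) {Ψ : K[X]} {r : ℕ} {P : A} (h1 : T.al P ∈ LL T.mu Ψ r)
    (h2 : T.be P ∈ LL T.mu Ψ r) : P ∈ LL T.mu (Ψ.comp T.Fm) (2 * r) := by
  rintro f ⟨q, rfl⟩ hd
  obtain ⟨q₀, q₁, hq⟩ := exists_decomp T.monic T.deg (q.natDegree + 1) q (Nat.lt_succ_self _)
  have he : Ψ.comp T.Fm * q = (Ψ * q₀).comp T.Fm + X * (Ψ * q₁).comp T.Fm := by
    conv_lhs => rw [hq]
    rw [mul_comp, mul_comp]
    ring
  rw [he] at hd ⊢
  obtain ⟨hd0, hd1⟩ := parity T.deg hd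
  rw [map_add, ← T.hal, ← T.hbe, h1 _ (dvd_mul_right _ _) hd0, h2 _ (dvd_mul_right _ _) hd1,
    add_zero]

/-- part (ii) -/
theorem part2 (T : Dat k₀ K A) {Φ Ψ Φ' G m s u v : K[X]} {r : ℕ} (hΦ : Φ = G * Φ')
    (hΦ0 : Φ ≠ 0) (_hΨ0 : Ψ ≠ 0)
    (hG : G ∣ Ψ.comp T.Fm) (hm : Φ' ∣ m.comp T.Fm) (hm0 : m ≠ 0) (hs0 : s ≠ 0) (hmv : m = s * v)
    (hu : u.degree < m.degree) (hus : Φ' ∣ u.comp T.Fm + X * s.comp T.Fm)
    (hdeg : m.natDegree + s.natDegree ≤ Φ'.natDegree)
    (hr : 2 * (Φ.natDegree + Ψ.natDegree) ≤ r) {P : A} (hP : P ∈ LL T.mu Φ (2 * r))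
    (hPa : T.al P ∈ LL T.mu Ψ r) : T.be P ∈ LL T.mu (s * Ψ) r := by
  have hv0 : v ≠ 0 := by
    rintro rfl
    exact hm0 (by rw [hmv, mul_zero])
  have hΦ'le : Φ'.natDegree ≤ Φ.natDegree := by
    have hG0 : G ≠ 0 := by rintro rfl; exact hΦ0 (by rw [hΦ, zero_mul])
    have hΦ'0 : Φ' ≠ 0 := by rintro rfl; exact hΦ0 (by rw [hΦ, mul_zero])
    rw [hΦ, natDegree_mul hG0 hΦ'0]
    omega
  have hmle : m.natDegree ≤ Φ.natDegree := by omega
  have hmsv : m.natDegree = s.natDegree + v.natDegree := by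
    rw [hmv, natDegree_mul hs0 hv0]
  rintro f ⟨f₁, rfl⟩ hd
  set f₂ := f₁ / v with hf₂
  set f₀ := f₁ % v with hf₀
  have hdiv : f₁ = v * f₂ + f₀ := (EuclideanDomain.div_add_mod f₁ v).symm
  have hf₀d : f₀.degree < v.degree := EuclideanDomain.mod_lt f₁ hv0
  have hsplit : s * Ψ * f₁ = m * Ψ * f₂ + s * Ψ * f₀ := by
    rw [hmv]
    conv_lhs => rw [hdiv]
    ring
  rw [hsplit, map_add]
  have hA : T.mu (T.be P) (m * Ψ * f₂) = 0 := by
    apply (part1 T hΦ hG hm hP).2 _ (dvd_mul_right _ _)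
    by_cases hlt : f₁.degree < v.degree
    · have : f₂ = 0 := (Polynomial.div_eq_zero_iff hv0).mpr hlt
      rw [this, mul_zero, degree_zero]
      exact WithBot.bot_lt_coe _
    · have h1 : v.degree + f₂.degree = f₁.degree := degree_add_div hv0 (not_lt.mp hlt)
      have h2 : (m * Ψ * f₂).degree = (s * Ψ * f₁).degree := by
        rw [hmv]
        simp only [degree_mul]
        rw [← h1]
        ring
      rw [h2]
      exact hd
  rw [hA, zero_add]
  by_cases h0 : f₀ = 0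
  · rw [h0, mul_zero, map_zero]
  have hf₀n : f₀.natDegree < v.natDegree := by
    rw [degree_eq_natDegree hv0] at hf₀d
    exact (natDegree_lt_iff_degree_lt h0).mpr hf₀d
  have hun : u.natDegree < m.natDegree := by
    by_cases hu0 : u = 0
    · rw [hu0, natDegree_zero]; omega
    · rw [degree_eq_natDegree hm0] at hu
      exact (natDegree_lt_iff_degree_lt hu0).mpr hu
  have hB : T.mu (T.al P) (u * Ψ * f₀) = 0 := by
    apply hPa _ ⟨u * f₀, by ring⟩
    by_cases hz : u * Ψ * f₀ = 0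
    · rw [hz, degree_zero]; exact WithBot.bot_lt_coe _
    · rw [← natDegree_lt_iff_degree_lt hz]
      have h1 : (u * Ψ * f₀).natDegree ≤ u.natDegree + Ψ.natDegree + f₀.natDegree :=
        natDegree_mul_le.trans (Nat.add_le_add_right natDegree_mul_le _)
      omega
  have hC : T.mu P ((u.comp T.Fm + X * s.comp T.Fm) * Ψ.comp T.Fm * f₀.comp T.Fm) = 0 := by
    apply hP
    · rw [hΦ]
      refine dvd_mul_of_dvd_left ?_ _
      rw [mul_comm]
      exact mul_dvd_mul hus hG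
    · by_cases hz : (u.comp T.Fm + X * s.comp T.Fm) * Ψ.comp T.Fm * f₀.comp T.Fm = 0
      · rw [hz, degree_zero]; exact WithBot.bot_lt_coe _
      · rw [← natDegree_lt_iff_degree_lt hz]
        have h1 : ((u.comp T.Fm + X * s.comp T.Fm) * Ψ.comp T.Fm * f₀.comp T.Fm).natDegree ≤
            (u.comp T.Fm + X * s.comp T.Fm).natDegree + (Ψ.comp T.Fm).natDegree +
              (f₀.comp T.Fm).natDegree :=
          natDegree_mul_le.trans (Nat.add_le_add_right natDegree_mul_le _)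
        have h2 : (u.comp T.Fm + X * s.comp T.Fm).natDegree ≤ 2 * m.natDegree + 1 := by
          refine (natDegree_add_le _ _).trans (max_le ?_ ?_)
          · rw [natDegree_comp_two T.deg]; omega
          · rw [natDegree_X_mul (comp_ne_zero_two T.deg hs0), natDegree_comp_two T.deg]
            omega
        rw [natDegree_comp_two T.deg, natDegree_comp_two T.deg] at h1
        omega
  have hD : X * (s * Ψ * f₀).comp T.Fm =
      (u.comp T.Fm + X * s.comp T.Fm) * Ψ.comp T.Fm * f₀.comp T.Fm -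
        (u * Ψ * f₀).comp T.Fm := by
    simp only [mul_comp]
    ring
  rw [T.hbe, hD, map_sub, hC, ← T.hal, hB, sub_zero]

end main

/-- FDW -/
theorem fdw (hG : GcdStmt) (hH : HnfStmt) : FdwStmt := by
  intro k₀ K A _ _ _ _ _ _ T Φ Ψ c c' r hc hΨm hΦm hcc hr
  classical
  have hΦ0 := hΦm.1
  have hΨ0 := hΨm.1
  have hΨF0 : Ψ.comp T.Fm ≠ 0 := comp_ne_zero_two T.deg hΨ0
  set G := EuclideanDomain.gcd Φ (Ψ.comp T.Fm) with hGdef
  have hG1 : G ∣ Φ := EuclideanDomain.gcd_dvd_left _ _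
  have hG2 : G ∣ Ψ.comp T.Fm := EuclideanDomain.gcd_dvd_right _ _
  obtain ⟨Φ', hΦ⟩ := hG1
  have hG0 : G ≠ 0 := by intro h; exact hΦ0 (by rw [hΦ, h, zero_mul])
  have hΦ'0 : Φ' ≠ 0 := by intro h; exact hΦ0 (by rw [hΦ, h, mul_zero])
  obtain ⟨m, s, u, v, hm0, hs0, hmv, hu, hm, hus, hdeg⟩ := hH K T.Fm Φ' T.monic T.deg hΦ'0
  have hΦdeg : Φ.natDegree = G.natDegree + Φ'.natDegree := by
    conv_lhs => rw [hΦ]
    exact natDegree_mul hG0 hΦ'0
  -- the dimension count
  have e1 : finrank k₀ (LL T.mu Φ (2 * r)) + finrank k₀ (LL T.mu Ψ r) ≤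
      finrank k₀ (LL T.mu Φ (2 * r) ⊓ (LL T.mu Ψ r).comap T.al : Submodule k₀ A) +
        finrank k₀ (LL T.mu (m * Ψ) r) := by
    apply rank_step T.al _ _ _ (LL_mono_dvd T.mu (dvd_mul_left Ψ m) r)
    intro P hP
    exact (part1 T hΦ hG2 hm hP).1
  have e2 : finrank k₀ (LL T.mu Φ (2 * r) ⊓ (LL T.mu Ψ r).comap T.al : Submodule k₀ A) +
      finrank k₀ (LL T.mu Ψ r) ≤
      finrank k₀ (LL T.mu Φ (2 * r) ⊓ (LL T.mu Ψ r).comap T.al ⊓ (LL T.mu Ψ r).comap T.be :
        Submodule k₀ A) + finrank k₀ (LL T.mu (s * Ψ) r) := by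
    apply rank_step T.be _ _ _ (LL_mono_dvd T.mu (dvd_mul_left Ψ s) r)
    rintro P ⟨hP, hPa⟩
    exact part2 T hΦ hΦ0 hΨ0 hG2 hm hm0 hs0 hmv hu hus hdeg hr hP hPa
  have e3 : finrank k₀ (LL T.mu Φ (2 * r) ⊓ (LL T.mu Ψ r).comap T.al ⊓
      (LL T.mu Ψ r).comap T.be : Submodule k₀ A) ≤ finrank k₀ (LL T.mu G (2 * r)) := by
    apply Submodule.finrank_mono
    rintro P ⟨⟨hP, hPa⟩, hPb⟩
    have h3 : P ∈ LL T.mu (Ψ.comp T.Fm) (2 * r) := part3 T hPa hPb
    refine hG k₀ K A T.mu Φ (Ψ.comp T.Fm) G (EuclideanDomain.gcdA Φ (Ψ.comp T.Fm))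
      (EuclideanDomain.gcdB Φ (Ψ.comp T.Fm)) (2 * r) (2 * r) hΦ0 hΨF0 ⟨Φ', hΦ⟩ hG2 ?_ le_rfl ?_
      ⟨hP, h3⟩
    · have := EuclideanDomain.gcd_eq_gcd_ab Φ (Ψ.comp T.Fm)
      rw [← hGdef] at this
      conv_lhs => rw [this]
      ring
    · rw [natDegree_comp_two T.deg]
      omega
  -- maximality
  have m1 := hΨm.2 (m * Ψ) (mul_ne_zero hm0 hΨ0)
  have m2 := hΨm.2 (s * Ψ) (mul_ne_zero hs0 hΨ0)
  have m3 := hΦm.2 G hG0
  rw [natDegree_mul hm0 hΨ0] at m1
  rw [natDegree_mul hs0 hΨ0] at m2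
  rw [hΦdeg] at m3
  push_cast at m1 m2 m3
  have e1' : (finrank k₀ (LL T.mu Φ (2 * r)) : ℝ) + finrank k₀ (LL T.mu Ψ r) ≤
      finrank k₀ (LL T.mu Φ (2 * r) ⊓ (LL T.mu Ψ r).comap T.al : Submodule k₀ A) +
        finrank k₀ (LL T.mu (m * Ψ) r) := by exact_mod_cast e1
  have e2' : (finrank k₀ (LL T.mu Φ (2 * r) ⊓ (LL T.mu Ψ r).comap T.al : Submodule k₀ A) : ℝ) +
      finrank k₀ (LL T.mu Ψ r) ≤
      finrank k₀ (LL T.mu Φ (2 * r) ⊓ (LL T.mu Ψ r).comap T.al ⊓ (LL T.mu Ψ r).comap T.be :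
        Submodule k₀ A) + finrank k₀ (LL T.mu (s * Ψ) r) := by exact_mod_cast e2
  have e3' : (finrank k₀ (LL T.mu Φ (2 * r) ⊓ (LL T.mu Ψ r).comap T.al ⊓
      (LL T.mu Ψ r).comap T.be : Submodule k₀ A) : ℝ) ≤ finrank k₀ (LL T.mu G (2 * r)) := by
    exact_mod_cast e3
  have hdeg' : (m.natDegree : ℝ) + s.natDegree ≤ Φ'.natDegree := by exact_mod_cast hdeg
  have hle : c' * (Φ'.natDegree : ℝ) ≤ c * Φ'.natDegree := by
    have h5 := mul_le_mul_of_nonneg_left hdeg' hc
    linarith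
  have hz : Φ'.natDegree = 0 := by
    by_contra hne
    have h6 : (0 : ℝ) < Φ'.natDegree := by exact_mod_cast Nat.pos_of_ne_zero hne
    have h7 := mul_lt_mul_of_pos_right hcc h6
    linarith
  have hunit : IsUnit Φ' := by
    rw [isUnit_iff_degree_eq_zero, degree_eq_natDegree hΦ'0, hz]
    rfl
  have hΦG : Φ ∣ G := by
    rw [hΦ]
    exact (hunit.mul_right_dvd).mpr dvd_rfl
  exact hΦG.trans hG2

end Pool.Agent.EDX.H88
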